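import Pool.Agent.Q226.ENH.Stmts

set_option autoImplicit false

open Cardinal Topology Set

namespace Pool.Agent.Q226.ENH

/-- the least cardinality in the definition of `cov` is attained -/
theorem cov_mem (X : Type) [TopologicalSpace X] (h : cov X ≠ 0) :
    ∃ (ι : Type) (N : ι → Set X), #ι = cov X ∧ (∀ i, IsNowhereDense (N i)) ∧
      ⋃ i, N i = Set.univ := by
  have hne : {κ : Cardinal.{0} | ∃ (ι : Type) (N : ι → Set X), #ι = κ ∧
      (∀ i, IsNowhereDense (N i)) ∧ ⋃ i, N i = Set.univ}.Nonempty := by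
    by_contra hcon
    rw [Set.not_nonempty_iff_eq_empty] at hcon
    exact h (by unfold cov; rw [hcon, Cardinal.sInf_empty])
  exact csInf_mem hne

theorem cov_real_mem : ∃ (ι : Type) (N : ι → Set ℝ), #ι = cov ℝ ∧ (∀ i, IsNowhereDense (N i)) ∧
      ⋃ i, N i = Set.univ := by
  have hne : {κ : Cardinal.{0} | ∃ (ι : Type) (N : ι → Set ℝ), #ι = κ ∧
      (∀ i, IsNowhereDense (N i)) ∧ ⋃ i, N i = Set.univ}.Nonempty := by
    refine ⟨#ℝ, ℝ, fun x => {x}, rfl, fun x => ?_, ?_⟩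
    · rw [IsNowhereDense, closure_singleton, interior_singleton]
    · exact Set.iUnion_of_singleton ℝ
  exact csInf_mem hne

theorem final (hLarge : TaskLarge) (hCov : TaskCov) (hDim : TaskDim) (hLine : TaskLine)
    (hPr : TaskPruefer) (hProd : TaskProd) : Final := by
  constructor
  · rintro ⟨n, M, _, hM, hlt⟩
    by_contra hcon
    push Not at hcon
    obtain ⟨hn, h1⟩ := hCov n M hM
    have h2 : 𝔠 ≤ OH M := hcon.trans ((hDim n hn).trans h1)
    exact absurd (hLarge n M hM.1 h2) (not_le.2 hlt)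
  · intro hc
    obtain ⟨ι, N, hι, hN, hcov⟩ := cov_real_mem
    obtain ⟨X, _, f, hX1, hX2, hX3, hX4⟩ := hLine ι N hN hcov
    obtain ⟨S, _, g, hS1, hS2, hS3, hS4, W, hW1, hW2⟩ := hPr
    obtain ⟨h1, h2, h3⟩ := hProd (Option ι) X f S g W hX1 hX2 hX3 hX4 hS1 hS2 hS3 hS4 hW1 hW2
    refine ⟨3, X × S, inferInstance, h1, lt_of_le_of_lt h2 (lt_of_lt_of_le ?_ h3)⟩
    rw [Cardinal.mk_option, hι]
    exact Cardinal.add_lt_of_lt Cardinal.aleph0_le_continuum hc
      (Cardinal.one_lt_aleph0.trans Cardinal.aleph0_lt_continuum)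

end Pool.Agent.Q226.ENH
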