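import Mathlib

/-!
# MP_434b1a_gt (Q1): an everywhere non-Hausdorff manifold with `E(M) > OH(M)` exists if and only if
# `cov(B) < 2^ω`

Definitions and the statements of the tasks.
-/

set_option autoImplicit false

open Cardinal Topology Set

namespace Pool.Agent.Q226.ENH

/-! ### Definitions -/

/-- `U` is an open subset of `X` homeomorphic to `ℝ^n`. -/
def IsEuclid (n : ℕ) {X : Type} [TopologicalSpace X] (U : Set X) : Prop :=
  IsOpen U ∧ Nonempty (U ≃ₜ EuclideanSpace ℝ (Fin n))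

/-- a manifold of dimension `n` (not necessarily Hausdorff): a connected space in which every point
has an open neighbourhood homeomorphic to `ℝ^n` -/
def IsManifold (n : ℕ) (X : Type) [TopologicalSpace X] : Prop :=
  ConnectedSpace X ∧ ∀ x : X, ∃ U : Set X, x ∈ U ∧ IsEuclid n U

/-- the points `y ≠ x` such that `x` and `y` have no disjoint open neighbourhoods -/
def NH {X : Type} [TopologicalSpace X] (x : X) : Set X :=
  {y | y ≠ x ∧ ¬ ∃ U V : Set X, IsOpen U ∧ IsOpen V ∧ x ∈ U ∧ y ∈ V ∧ Disjoint U V}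

/-- everywhere non-Hausdorff manifolds of dimension `n` -/
def IsENH (n : ℕ) (X : Type) [TopologicalSpace X] : Prop :=
  IsManifold n X ∧ ∀ x : X, (NH x).Nonempty

/-- `E(X)`: the least cardinality of a cover of `X` by open subsets homeomorphic to `ℝ^n` -/
noncomputable def E (n : ℕ) (X : Type) [TopologicalSpace X] : Cardinal.{0} :=
  sInf {κ | ∃ (ι : Type) (U : ι → Set X), #ι = κ ∧ (∀ i, IsEuclid n (U i)) ∧ ⋃ i, U i = Set.univ}

/-- `OH(X)`: the least cardinality of a cover of `X` by open subsets that are Hausdorff in the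
subspace topology -/
noncomputable def OH (X : Type) [TopologicalSpace X] : Cardinal.{0} :=
  sInf {κ | ∃ (ι : Type) (U : ι → Set X), #ι = κ ∧ (∀ i, IsOpen (U i) ∧ T2Space (U i)) ∧
    ⋃ i, U i = Set.univ}

/-- the least number of nowhere dense sets that cover `X` -/
noncomputable def cov (X : Type) [TopologicalSpace X] : Cardinal.{0} :=
  sInf {κ | ∃ (ι : Type) (N : ι → Set X), #ι = κ ∧ (∀ i, IsNowhereDense (N i)) ∧ ⋃ i, N i = Set.univ}

/-! ### Tasks -/

/-- A connected first countable Hausdorff space in which every point has an open neighbourhood with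
at most `2^ω` points has at most `2^ω` points. -/
def TaskCard : Prop :=
  ∀ (X : Type) [TopologicalSpace X] [T2Space X] [FirstCountableTopology X] [ConnectedSpace X],
    (∀ x : X, ∃ U : Set X, IsOpen U ∧ x ∈ U ∧ #U ≤ 𝔠) → #X ≤ 𝔠

/-- In a connected space, an open cover by nonempty sets each of which meets at most `μ` members has
at most `μ` members. -/
def TaskChain : Prop :=
  ∀ (X : Type) [TopologicalSpace X] [PreconnectedSpace X] (ι : Type) (C : ι → Set X)
    (μ : Cardinal.{0}), ℵ₀ ≤ μ → (∀ i, IsOpen (C i)) → (∀ i, (C i).Nonempty) →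
    ⋃ i, C i = Set.univ → (∀ i, #{j // (C i ∩ C j).Nonempty} ≤ μ) → #ι ≤ μ

/-- Large manifolds (may assume `TaskCard` and `TaskChain`). -/
def TaskLarge : Prop :=
  ∀ (n : ℕ) (M : Type) [TopologicalSpace M], IsManifold n M → 𝔠 ≤ OH M → E n M ≤ OH M

/-- The number of open Hausdorff sets in a cover of an everywhere non-Hausdorff manifold. -/
def TaskCov : Prop :=
  ∀ (n : ℕ) (M : Type) [TopologicalSpace M], IsENH n M →
    1 ≤ n ∧ cov (EuclideanSpace ℝ (Fin n)) ≤ OH M

/-- The covering number of category does not go down with the dimension. -/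
def TaskDim : Prop :=
  ∀ n : ℕ, 1 ≤ n → cov ℝ ≤ cov (EuclideanSpace ℝ (Fin n))

/-- Gluing. -/
def TaskGlue : Prop :=
  ∀ (F I : Type) [TopologicalSpace F] (r : Setoid ((_ : I) × F)),
    (∀ i x y, r ⟨i, x⟩ ⟨i, y⟩ → x = y) →
    (∀ i j (U : Set F), IsOpen U → IsOpen {x | ∃ y ∈ U, r ⟨i, x⟩ ⟨j, y⟩}) →
    ∀ i, IsOpenEmbedding (fun x : F => (Quotient.mk r ⟨i, x⟩ : Quotient r))

/-- The line with doubled nowhere dense sets (may assume `TaskGlue`). -/
def TaskLine : Prop :=
  ∀ (ι : Type) (N : ι → Set ℝ), (∀ i, IsNowhereDense (N i)) → ⋃ i, N i = Set.univ →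
    ∃ (X : Type) (_ : TopologicalSpace X) (f : Option ι → ℝ → X), ConnectedSpace X ∧
      (∀ i, IsOpenEmbedding (f i)) ∧ ⋃ i, range (f i) = Set.univ ∧ ∀ x : X, (NH x).Nonempty

/-- The Pruefer surface (may assume `TaskGlue`). -/
def TaskPruefer : Prop :=
  ∃ (S : Type) (_ : TopologicalSpace S) (f : ℝ → ℝ × ℝ → S), T2Space S ∧ ConnectedSpace S ∧
    (∀ a, IsOpenEmbedding (f a)) ∧ ⋃ a, range (f a) = Set.univ ∧
    ∃ W : ℝ → Set S, (∀ a, IsOpen (W a) ∧ (W a).Nonempty) ∧
      ∀ a b, a ≠ b → Disjoint (W a) (W b)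

/-- The product of the two spaces is the example. -/
def TaskProd : Prop :=
  ∀ (K : Type) (X : Type) [TopologicalSpace X] (f : K → ℝ → X) (S : Type) [TopologicalSpace S]
    (g : ℝ → ℝ × ℝ → S) (W : ℝ → Set S), ConnectedSpace X → (∀ i, IsOpenEmbedding (f i)) →
    ⋃ i, range (f i) = Set.univ → (∀ x : X, (NH x).Nonempty) → T2Space S → ConnectedSpace S →
    (∀ a, IsOpenEmbedding (g a)) → ⋃ a, range (g a) = Set.univ →
    (∀ a, IsOpen (W a) ∧ (W a).Nonempty) → (∀ a b, a ≠ b → Disjoint (W a) (W b)) →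
    IsENH 3 (X × S) ∧ OH (X × S) ≤ #K ∧ 𝔠 ≤ E 3 (X × S)

/-- The final theorem. -/
def Final : Prop :=
  (∃ (n : ℕ) (M : Type) (_ : TopologicalSpace M), IsENH n M ∧ OH M < E n M) ↔ cov ℝ < 𝔠

end Pool.Agent.Q226.ENH
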