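import Pool.Agent.Q226.ENH.Stmts

/-!
# MP_434b1a_gt: connected locally small spaces are small
-/

set_option autoImplicit false

open Cardinal Topology Set Filter

namespace Pool.Agent.Q226.ENH.TaskCard

/-- The arities. -/
def Ar : Option (Option ℝ) → Type
  | none => Empty
  | some _ => ℕ

lemma card_W : #(WType Ar) ≤ 𝔠 := by
  apply WType.cardinalMk_le_of_le
  calc (sum fun a => 𝔠 ^ #(Ar a)) ≤ sum fun _ : Option (Option ℝ) => 𝔠 := by
        apply sum_le_sum
        intro a
        rcases a with _ | a
        · have : #(Ar none) = 0 := by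
            change #Empty = 0
            simp
          rw [this, power_zero]
          exact one_lt_aleph0.le.trans aleph0_le_continuum
        · have : #(Ar (some a)) = ℵ₀ := by
            change #ℕ = ℵ₀
            simp
          rw [this, continuum_power_aleph0]
    _ = #(Option (Option ℝ)) * 𝔠 := sum_const' _ _
    _ ≤ 𝔠 * 𝔠 := by
        have h : #(Option (Option ℝ)) ≤ 𝔠 := by
          rw [mk_option, mk_option, mk_real, add_one_eq aleph0_le_continuum,
            add_one_eq aleph0_le_continuum]
        gcongr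
    _ = 𝔠 := continuum_mul_self

theorem main : Pool.Agent.Q226.ENH.TaskCard := by
  intro X _ _ _ _ hV
  classical
  choose V hVo hxV hVc using hV
  have hsurj : ∀ x, ∃ e : ℝ → X, V x ⊆ range e := by
    intro x
    have h1 : #(V x) ≤ #ℝ := by rw [mk_real]; exact hVc x
    obtain ⟨φ⟩ := le_def _ _ |>.1 h1
    have : Nonempty (V x) := ⟨⟨x, hxV x⟩⟩
    refine ⟨fun t => (Function.invFun φ t : V x), fun y hy => ⟨φ ⟨y, hy⟩, ?_⟩⟩
    simp only
    rw [Function.leftInverse_invFun φ.injective]
  choose e he using hsurj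
  obtain ⟨x0⟩ : Nonempty X := inferInstance
  let step : (Σ a : Option (Option ℝ), Ar a → X) → X := fun s =>
    match s with
    | ⟨none, _⟩ => x0
    | ⟨some none, f⟩ =>
        if h : ∃ y, Tendsto (fun n : ℕ => f n) atTop (𝓝 y) then h.choose else x0
    | ⟨some (some c), f⟩ => e (f (0 : ℕ)) c
  let ev : WType Ar → X := WType.elim X step
  have hopen : ∀ x ∈ range ev, V x ⊆ range ev := by
    rintro _ ⟨w, rfl⟩ y hy
    obtain ⟨c, hc⟩ := he _ hy
    exact ⟨WType.mk (some (some c)) (fun _ => w), hc⟩
  have h1 : IsOpen (range ev) := by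
    rw [isOpen_iff_mem_nhds]
    intro x hx
    exact mem_of_superset ((hVo x).mem_nhds (hxV x)) (hopen x hx)
  have h2 : IsClosed (range ev) := by
    apply isClosed_of_closure_subset
    intro y hy
    obtain ⟨s, hs, hlim⟩ := mem_closure_iff_seq_limit.1 hy
    choose w hw using hs
    refine ⟨WType.mk (some none) (fun n : ℕ => w n), ?_⟩
    have hex : ∃ y, Tendsto (fun n : ℕ => ev (w n)) atTop (𝓝 y) := ⟨y, by simpa only [hw] using hlim⟩
    have : ev (WType.mk (some none) (fun n : ℕ => w n)) = hex.choose := by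
      change (if h : ∃ y, Tendsto (fun n : ℕ => ev (w n)) atTop (𝓝 y) then h.choose else x0) = _
      rw [dif_pos hex]
    rw [this]
    refine tendsto_nhds_unique hex.choose_spec ?_
    simpa only [hw] using hlim
  have h3 : range ev = Set.univ :=
    IsClopen.eq_univ ⟨h2, h1⟩ ⟨_, WType.mk none (fun i => Empty.elim i), rfl⟩
  calc #X = #(Set.univ : Set X) := mk_univ.symm
    _ = #(range ev) := by rw [h3]
    _ ≤ #(WType Ar) := mk_range_le
    _ ≤ 𝔠 := card_W

end Pool.Agent.Q226.ENH.TaskCard
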