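import Pool.Agent.Q226.ENH.Stmts

set_option autoImplicit false

open Cardinal Topology Set

namespace Pool.Agent.Q226.ENH.TaskChain

theorem main : Pool.Agent.Q226.ENH.TaskChain := by
  intro X _ _ ι C μ hμ hC hne hcov hmeet
  classical
  rcases isEmpty_or_nonempty ι with h | ⟨⟨i0⟩⟩
  · rw [Cardinal.mk_eq_zero ι]
    exact zero_le
  set R : ι → Set ι := fun i => {j | (C i ∩ C j).Nonempty} with hR
  set L : ℕ → Set ι := fun n => Nat.rec {i0} (fun _ S => ⋃ i ∈ S, R i) n with hL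
  have hL0 : L 0 = {i0} := rfl
  have hLs : ∀ n, L (n + 1) = ⋃ i ∈ L n, R i := fun n => rfl
  have hcard : ∀ n, #(L n) ≤ μ := by
    intro n
    induction n with
    | zero =>
      rw [hL0]
      simp only [Cardinal.mk_fintype, Fintype.card_unique, Nat.cast_one]
      exact le_trans Cardinal.one_le_aleph0 hμ
    | succ n ih =>
      rw [hLs]
      refine (Cardinal.mk_biUnion_le R (L n)).trans ?_
      calc #(L n) * ⨆ x : L n, #(R x.1) ≤ μ * μ := by
            refine mul_le_mul' ih (ciSup_le' fun i => ?_)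
            exact hmeet i.1
        _ = μ := Cardinal.mul_eq_self hμ
  have hT : #(⋃ n, L n : Set ι) ≤ μ := by
    refine (Cardinal.mk_iUnion_le L).trans ?_
    calc #ℕ * ⨆ n, #(L n) ≤ μ * μ := by
          refine mul_le_mul' ?_ (ciSup_le' hcard)
          rw [Cardinal.mk_nat]; exact hμ
      _ = μ := Cardinal.mul_eq_self hμ
  have huniv : (⋃ n, L n : Set ι) = Set.univ := by
    by_contra hcon
    obtain ⟨k, hk⟩ := (Set.ne_univ_iff_exists_notMem _).1 hcon
    set U : Set X := ⋃ i ∈ (⋃ n, L n : Set ι), C i with hU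
    set V : Set X := ⋃ i ∈ ((⋃ n, L n : Set ι)ᶜ), C i with hV
    have hUo : IsOpen U := isOpen_biUnion fun i _ => hC i
    have hVo : IsOpen V := isOpen_biUnion fun i _ => hC i
    have hUV : (Set.univ : Set X) ⊆ U ∪ V := by
      intro x _
      have : x ∈ ⋃ i, C i := by rw [hcov]; trivial
      obtain ⟨i, hi⟩ := Set.mem_iUnion.1 this
      by_cases h : i ∈ (⋃ n, L n : Set ι)
      · exact Or.inl (Set.mem_biUnion h hi)
      · exact Or.inr (Set.mem_biUnion (show i ∈ ((⋃ n, L n : Set ι)ᶜ) from h) hi)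
    obtain ⟨a, ha⟩ := hne i0
    obtain ⟨b, hb⟩ := hne k
    have hUne : ((Set.univ : Set X) ∩ U).Nonempty :=
      ⟨a, trivial, Set.mem_biUnion (Set.mem_iUnion.2 ⟨0, by rw [hL0]; rfl⟩) ha⟩
    have hVne : ((Set.univ : Set X) ∩ V).Nonempty :=
      ⟨b, trivial, Set.mem_biUnion (show k ∈ ((⋃ n, L n : Set ι)ᶜ) from hk) hb⟩
    obtain ⟨x, -, hxU, hxV⟩ := isPreconnected_univ U V hUo hVo hUV hUne hVne
    obtain ⟨i, hi, hxi⟩ := Set.mem_iUnion₂.1 hxU
    obtain ⟨j, hj, hxj⟩ := Set.mem_iUnion₂.1 hxV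
    obtain ⟨n, hn⟩ := Set.mem_iUnion.1 hi
    refine hj (Set.mem_iUnion.2 ⟨n + 1, ?_⟩)
    rw [hLs]
    exact Set.mem_biUnion hn (show (C i ∩ C j).Nonempty from ⟨x, hxi, hxj⟩)
  rw [huniv, Cardinal.mk_univ] at hT
  exact hT

end Pool.Agent.Q226.ENH.TaskChain
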