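import Pool.Agent.Q226.ENH.Stmts

set_option autoImplicit false

open Cardinal Topology Set

namespace Pool.Agent.Q226.ENH.TaskCov

theorem main : Pool.Agent.Q226.ENH.TaskCov := by
  intro n M _ hM
  obtain ⟨⟨hconn, hch⟩, hNH⟩ := hM
  -- the infimum is attained
  have hne : {κ : Cardinal.{0} | ∃ (ι : Type) (U : ι → Set M), #ι = κ ∧
      (∀ i, IsOpen (U i) ∧ T2Space (U i)) ∧ ⋃ i, U i = Set.univ}.Nonempty := by
    choose U hxU hU using hch
    refine ⟨#M, M, U, rfl, fun i => ⟨(hU i).1, ?_⟩, ?_⟩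
    · obtain ⟨e⟩ := (hU i).2
      exact e.symm.t2Space
    · exact Set.eq_univ_of_forall fun x => Set.mem_iUnion.2 ⟨x, hxU x⟩
  obtain ⟨ι, U, hι, hU, hcov⟩ := csInf_mem hne
  obtain ⟨p⟩ : Nonempty M := hconn.toNonempty
  obtain ⟨V, hpV, hVo, ⟨h⟩⟩ := hch p
  let A : ι → Set V := fun i => {x | (x : M) ∈ closure (U i) ∧ (x : M) ∉ U i}
  have hAcl : ∀ i, IsClosed (A i) := by
    intro i
    have e : A i = ((↑) : V → M) ⁻¹' (closure (U i) ∩ (U i)ᶜ) := rfl
    rw [e]
    exact (isClosed_closure.inter (hU i).1.isClosed_compl).preimage continuous_subtype_val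
  have hAint : ∀ i, interior (A i) = ∅ := by
    intro i
    by_contra hcon
    obtain ⟨x, hx⟩ := Set.nonempty_iff_ne_empty.2 hcon
    have ho : IsOpen (((↑) : V → M) '' interior (A i)) :=
      hVo.isOpenMap_subtype_val _ isOpen_interior
    have hx' : (x : M) ∈ ((↑) : V → M) '' interior (A i) := ⟨x, hx, rfl⟩
    have hxc : (x : M) ∈ closure (U i) := (interior_subset hx).1
    obtain ⟨y, hy1, hy2⟩ := mem_closure_iff.1 hxc _ ho hx'
    obtain ⟨z, hz, rfl⟩ := hy1
    exact (interior_subset hz).2 hy2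
  have hAcov : ∀ x : V, ∃ i, x ∈ A i := by
    intro x
    obtain ⟨y, hyx, hsep⟩ := hNH (x : M)
    have hy : y ∈ ⋃ i, U i := by rw [hcov]; trivial
    obtain ⟨i, hi⟩ := Set.mem_iUnion.1 hy
    refine ⟨i, ?_, ?_⟩
    · rw [mem_closure_iff]
      intro O hO hxO
      by_contra hemp
      exact hsep ⟨O, U i, hO, (hU i).1, hxO, hi,
        Set.disjoint_iff_inter_eq_empty.2 (Set.not_nonempty_iff_eq_empty.1 hemp)⟩
    · intro hxi
      haveI := (hU i).2
      have hne' : (⟨x, hxi⟩ : U i) ≠ ⟨y, hi⟩ := fun h => hyx (congrArg Subtype.val h).symm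
      obtain ⟨O, W, hO, hW, hxO, hyW, hd⟩ := t2_separation hne'
      refine hsep ⟨((↑) : U i → M) '' O, ((↑) : U i → M) '' W,
        (hU i).1.isOpenMap_subtype_val _ hO, (hU i).1.isOpenMap_subtype_val _ hW,
        ⟨_, hxO, rfl⟩, ⟨_, hyW, rfl⟩, ?_⟩
      exact (Set.disjoint_image_iff Subtype.val_injective).2 hd
  constructor
  · by_contra hn
    have hn0 : n = 0 := by omega
    subst hn0
    obtain ⟨i, hi⟩ := hAcov ⟨p, hpV⟩
    have hsub : Subsingleton V := h.toEquiv.subsingleton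
    have : A i = Set.univ := Set.eq_univ_of_forall fun x => by
      rw [Subsingleton.elim x ⟨p, hpV⟩]; exact hi
    have h2 := hAint i
    rw [this, interior_univ] at h2
    have h3 : (⟨p, hpV⟩ : V) ∈ (Set.univ : Set V) := trivial
    rw [h2] at h3
    exact h3
  · have e : OH M = #ι := hι.symm
    rw [e]
    refine csInf_le' ⟨ι, fun i => h '' (A i), rfl, ?_, ?_⟩
    · intro i
      show interior (closure (h '' (A i))) = ∅
      rw [← h.image_closure, (hAcl i).closure_eq, ← h.image_interior, hAint i, Set.image_empty]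
    · refine Set.eq_univ_of_forall fun z => ?_
      obtain ⟨i, hi⟩ := hAcov (h.symm z)
      exact Set.mem_iUnion.2 ⟨i, h.symm z, hi, h.apply_symm_apply z⟩

end Pool.Agent.Q226.ENH.TaskCov
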