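import Pool.Agent.Q226.ENH.Stmts

set_option autoImplicit false

open Cardinal Topology Set

namespace Pool.Agent.Q226.ENH.TaskDim

/-- every cover by nowhere dense sets has at least `cov ℝ` members -/
def P (Y : Type) [TopologicalSpace Y] : Prop :=
  ∀ (ι : Type) (N : ι → Set Y), (∀ i, IsNowhereDense (N i)) → ⋃ i, N i = Set.univ → cov ℝ ≤ #ι

theorem P_homeo {X Z : Type} [TopologicalSpace X] [TopologicalSpace Z] (e : X ≃ₜ Z) (h : P X) :
    P Z := by
  intro ι N hN hc
  refine h ι (fun i => e ⁻¹' (N i)) ?_ ?_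
  · intro i
    show interior (closure (e ⁻¹' (N i))) = ∅
    rw [← e.preimage_closure, ← e.preimage_interior]
    have : interior (closure (N i)) = ∅ := hN i
    rw [this, Set.preimage_empty]
  · rw [← Set.preimage_iUnion, hc, Set.preimage_univ]

theorem cov_nonempty : {κ : Cardinal.{0} | ∃ (ι : Type) (N : ι → Set ℝ), #ι = κ ∧
    (∀ i, IsNowhereDense (N i)) ∧ ⋃ i, N i = Set.univ}.Nonempty := by
  refine ⟨#ℝ, ℝ, fun x => {x}, rfl, fun x => ?_, ?_⟩
  · show interior (closure {x}) = ∅
    rw [closure_singleton, interior_singleton]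
  · exact Set.eq_univ_of_forall fun x => Set.mem_iUnion.2 ⟨x, rfl⟩

theorem aleph0_lt_cov : ℵ₀ < cov ℝ := by
  by_contra hcon
  push Not at hcon
  obtain ⟨ι, N, hι, hN, hc⟩ := csInf_mem cov_nonempty
  have hcount : Countable ι := by
    rw [← Cardinal.mk_le_aleph0_iff, hι]
    exact hcon
  have hc' : ⋃ i, closure (N i) = Set.univ :=
    Set.eq_univ_of_univ_subset (hc ▸ Set.iUnion_mono fun i => subset_closure)
  obtain ⟨i, hi⟩ := nonempty_interior_of_iUnion_of_closed (fun i => isClosed_closure) hc'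
  have : interior (closure (N i)) = ∅ := hN i
  rw [this] at hi
  exact Set.not_nonempty_empty hi

theorem P_prod {Y : Type} [TopologicalSpace Y] [SecondCountableTopology Y] (h : P Y) :
    P (ℝ × Y) := by
  intro ι N hN hc
  by_contra hcon
  push Not at hcon
  let B := TopologicalSpace.countableBasis Y
  have hB : TopologicalSpace.IsTopologicalBasis B := TopologicalSpace.isBasis_countableBasis Y
  let Z : ι × B → Set ℝ := fun q => {x | ∀ y ∈ (q.2 : Set Y), (x, y) ∈ closure (N q.1)}
  have hZcl : ∀ q, IsClosed (Z q) := by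
    intro q
    have e : Z q = ⋂ y ∈ (q.2 : Set Y), (fun x : ℝ => (x, y)) ⁻¹' closure (N q.1) := by
      ext x
      simp [Z]
    rw [e]
    exact isClosed_biInter fun y _ => isClosed_closure.preimage (by fun_prop)
  have hZ : ∀ q, IsNowhereDense (Z q) := by
    intro q
    show interior (closure (Z q)) = ∅
    rw [(hZcl q).closure_eq]
    by_contra hne
    obtain ⟨x, hx⟩ := Set.nonempty_iff_ne_empty.2 hne
    obtain ⟨y, hy⟩ := TopologicalSpace.nonempty_of_mem_countableBasis q.2.2
    have ho : IsOpen (interior (Z q) ×ˢ (q.2 : Set Y)) :=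
      isOpen_interior.prod (TopologicalSpace.isOpen_of_mem_countableBasis q.2.2)
    have hsub : interior (Z q) ×ˢ (q.2 : Set Y) ⊆ closure (N q.1) := by
      rintro ⟨a, b⟩ ⟨ha, hb⟩
      exact (interior_subset ha : a ∈ Z q) b hb
    have h1 : ((x, y) : ℝ × Y) ∈ interior (closure (N q.1)) :=
      interior_maximal hsub ho ⟨hx, hy⟩
    have h2 : interior (closure (N q.1)) = ∅ := hN q.1
    rw [h2] at h1
    exact h1
  have hlt : #(ι × B) < cov ℝ := by
    have hBc : #B ≤ ℵ₀ := Cardinal.mk_le_aleph0_iff.2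
      (TopologicalSpace.countable_countableBasis Y).to_subtype
    rw [Cardinal.mk_prod, Cardinal.lift_id, Cardinal.lift_id]
    exact Cardinal.mul_lt_of_lt aleph0_lt_cov.le hcon (hBc.trans_lt aleph0_lt_cov)
  have hnc : ⋃ q, Z q ≠ Set.univ := by
    intro hall
    exact absurd (csInf_le' ⟨ι × B, Z, rfl, hZ, hall⟩ : cov ℝ ≤ #(ι × B)) (not_le.2 hlt)
  obtain ⟨x, hx⟩ := (Set.ne_univ_iff_exists_notMem _).1 hnc
  have hx' : ∀ q, x ∉ Z q := fun q hq => hx (Set.mem_iUnion.2 ⟨q, hq⟩)
  refine absurd (h ι (fun i => {y | (x, y) ∈ closure (N i)}) ?_ ?_) (not_le.2 hcon)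
  · intro i
    have hcl : IsClosed {y : Y | (x, y) ∈ closure (N i)} :=
      isClosed_closure.preimage (f := fun y : Y => (x, y)) (by fun_prop)
    show interior (closure {y : Y | (x, y) ∈ closure (N i)}) = ∅
    rw [hcl.closure_eq]
    by_contra hne
    obtain ⟨y, hy⟩ := Set.nonempty_iff_ne_empty.2 hne
    obtain ⟨b, hb, _, hbs⟩ := hB.exists_subset_of_mem_open hy isOpen_interior
    refine hx' (i, ⟨b, hb⟩) ?_
    intro z hz
    have h9 : z ∈ {y : Y | (x, y) ∈ closure (N i)} := interior_subset (hbs hz)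
    exact h9
  · refine Set.eq_univ_of_forall fun y => ?_
    have hy : ((x, y) : ℝ × Y) ∈ ⋃ i, N i := by rw [hc]; trivial
    obtain ⟨i, hi⟩ := Set.mem_iUnion.1 hy
    exact Set.mem_iUnion.2 ⟨i, subset_closure hi⟩

theorem P_euclid (n : ℕ) : P (EuclideanSpace ℝ (Fin n)) := by
  induction n with
  | zero =>
    intro ι N hN hc
    exfalso
    have h0 : (0 : EuclideanSpace ℝ (Fin 0)) ∈ ⋃ i, N i := by rw [hc]; trivial
    obtain ⟨i, hi⟩ := Set.mem_iUnion.1 h0
    have hu : N i = Set.univ := Set.eq_univ_of_forall fun x => by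
      rw [Subsingleton.elim x 0]; exact hi
    have h1 : interior (closure (N i)) = ∅ := hN i
    rw [hu, closure_univ, interior_univ] at h1
    have : (0 : EuclideanSpace ℝ (Fin 0)) ∈ (Set.univ : Set (EuclideanSpace ℝ (Fin 0))) := trivial
    rw [h1] at this
    exact this
  | succ n ih =>
    have e : (ℝ × EuclideanSpace ℝ (Fin n)) ≃L[ℝ] EuclideanSpace ℝ (Fin (n + 1)) :=
      ContinuousLinearEquiv.ofFinrankEq (by simp [Module.finrank_prod, add_comm])
    exact P_homeo e.toHomeomorph (P_prod ih)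

theorem main : Pool.Agent.Q226.ENH.TaskDim := by
  intro n hn
  refine le_csInf ?_ ?_
  · obtain ⟨m, rfl⟩ : ∃ m, n = m + 1 := ⟨n - 1, by omega⟩
    refine ⟨#(EuclideanSpace ℝ (Fin (m + 1))), EuclideanSpace ℝ (Fin (m + 1)), fun x => {x}, rfl,
      fun x => ?_, ?_⟩
    · show interior (closure {x}) = ∅
      haveI : Nontrivial (EuclideanSpace ℝ (Fin (m + 1))) := by
        apply Module.nontrivial_of_finrank_pos (R := ℝ)
        simp
      rw [closure_singleton]
      haveI : (nhdsWithin x {x}ᶜ).NeBot := Module.punctured_nhds_neBot ℝ _ x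
      exact interior_singleton x
    · exact Set.eq_univ_of_forall fun x => Set.mem_iUnion.2 ⟨x, rfl⟩
  · rintro κ ⟨ι, N, rfl, hN, hc⟩
    exact P_euclid n ι N hN hc

end Pool.Agent.Q226.ENH.TaskDim
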