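import Pool.Agent.Q226.ENH.Stmts

/-!
# MP_434b1a_gt, TaskGlue: gluing
-/

set_option autoImplicit false

open Topology

namespace Pool.Agent.Q226.ENH.TaskGlue

theorem main : Pool.Agent.Q226.ENH.TaskGlue := by
  intro F I _ r hinj hopen i
  refine IsOpenEmbedding.of_continuous_injective_isOpenMap ?_ ?_ ?_
  · exact continuous_quotient_mk'.comp continuous_sigmaMk
  · intro x y hxy
    exact hinj i x y (Quotient.exact hxy)
  · intro U hU
    have h1 : IsOpen ((fun p : (_ : I) × F => (Quotient.mk r p : Quotient r)) ⁻¹'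
        ((fun x : F => (Quotient.mk r ⟨i, x⟩ : Quotient r)) '' U)) := by
      rw [isOpen_sigma_iff]
      intro j
      have h2 : Sigma.mk j ⁻¹' ((fun p : (_ : I) × F => (Quotient.mk r p : Quotient r)) ⁻¹'
          ((fun x : F => (Quotient.mk r ⟨i, x⟩ : Quotient r)) '' U)) =
          {x | ∃ y ∈ U, r ⟨j, x⟩ ⟨i, y⟩} := by
        ext x
        constructor
        · rintro ⟨y, hy, he⟩
          exact ⟨y, hy, r.symm (Quotient.exact he)⟩
        · rintro ⟨y, hy, he⟩
          exact ⟨y, hy, Quotient.sound (r.symm he)⟩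
      rw [h2]
      exact hopen j i U hU
    exact h1

end Pool.Agent.Q226.ENH.TaskGlue
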