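import Pool.Agent.Q226.ENH.Stmts

set_option autoImplicit false

open Cardinal Topology Set

namespace Pool.Agent.Q226.ENH.TaskLarge

open Pool.Agent.Q226.ENH

/-- an open subset homeomorphic to `ℝ^n` -/
theorem euclid_card {n : ℕ} {M : Type} [TopologicalSpace M] {U : Set M} (h : IsEuclid n U) :
    #U ≤ 𝔠 := by
  obtain ⟨-, ⟨e⟩⟩ := h
  rw [Cardinal.mk_congr e.toEquiv]
  have : #(EuclideanSpace ℝ (Fin n)) = #(Fin n → ℝ) :=
    Cardinal.mk_congr (EuclideanSpace.equiv (Fin n) ℝ).toEquiv
  rw [this, ← Cardinal.power_def, Cardinal.mk_real, Cardinal.mk_fin]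
  rcases Nat.eq_zero_or_pos n with rfl | hn
  · simpa using Cardinal.one_lt_aleph0.le.trans Cardinal.aleph0_le_continuum
  · exact (Cardinal.power_nat_eq Cardinal.aleph0_le_continuum (by omega)).le

/-- the space is first countable -/
theorem firstCountable {n : ℕ} {M : Type} [TopologicalSpace M] (hM : IsManifold n M) :
    FirstCountableTopology M := by
  constructor
  intro x
  obtain ⟨U, hx, hU, ⟨e⟩⟩ := hM.2 x
  have h1 : (𝓝 (⟨x, hx⟩ : U)).IsCountablyGenerated := by
    have := (e.isInducing).nhds_eq_comap (⟨x, hx⟩ : U)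
    rw [this]
    infer_instance
  have h2 : 𝓝 x = Filter.map Subtype.val (𝓝 (⟨x, hx⟩ : U)) :=
    (map_nhds_subtype_coe_eq_nhds hx (hU.mem_nhds hx)).symm
  rw [h2]
  infer_instance

/-- the space is locally connected -/
theorem locallyConnected {n : ℕ} {M : Type} [TopologicalSpace M] (hM : IsManifold n M) :
    LocallyConnectedSpace M := by
  rw [locallyConnectedSpace_iff_subsets_isOpen_isConnected]
  intro x V hV
  obtain ⟨U, hx, hU, ⟨e⟩⟩ := hM.2 x
  have hloc : LocallyConnectedSpace U := by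
    exact e.isOpenEmbedding.locallyConnectedSpace
  have hV' : Subtype.val ⁻¹' V ∈ 𝓝 (⟨x, hx⟩ : U) := continuous_subtype_val.continuousAt hV
  obtain ⟨W, hW1, hW2, hW3, hW4⟩ := locallyConnectedSpace_iff_subsets_isOpen_isConnected.1 hloc
    ⟨x, hx⟩ _ hV'
  refine ⟨Subtype.val '' W, ?_, hU.isOpenMap_subtype_val _ hW2, ⟨_, hW3, rfl⟩,
    hW4.image _ continuous_subtype_val.continuousOn⟩
  rintro _ ⟨w, hw, rfl⟩
  exact hW1 hw

/-- the components of the sets of a cover -/
def comp {M : Type} {ι : Type} [TopologicalSpace M] (U : ι → Set M)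
    (j : (i : ι) × ConnectedComponents (U i)) : Set M :=
  Subtype.val '' {u : U j.1 | (u : ConnectedComponents (U j.1)) = j.2}

theorem mem_comp {M : Type} {ι : Type} [TopologicalSpace M] (U : ι → Set M) (i : ι) (x : M)
    (hx : x ∈ U i) (c : ConnectedComponents (U i)) :
    x ∈ comp U ⟨i, c⟩ ↔ ((⟨x, hx⟩ : U i) : ConnectedComponents (U i)) = c := by
  constructor
  · rintro ⟨⟨y, hy⟩, h1, h2⟩
    simp only at h2
    subst h2
    exact h1
  · intro h
    exact ⟨⟨x, hx⟩, h, rfl⟩

theorem comp_subset {M : Type} {ι : Type} [TopologicalSpace M] (U : ι → Set M)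
    (j : (i : ι) × ConnectedComponents (U i)) : comp U j ⊆ U j.1 := by
  rintro _ ⟨u, -, rfl⟩
  exact u.2

theorem comp_eq {M : Type} {ι : Type} [TopologicalSpace M] (U : ι → Set M) (i : ι) (u : U i) :
    comp U ⟨i, (u : ConnectedComponents (U i))⟩ = Subtype.val '' connectedComponent u := by
  unfold comp
  congr 1
  exact connectedComponents_preimage_singleton

theorem card_comp (hCard : TaskCard) {n : ℕ} {M : Type} [TopologicalSpace M]
    (hM : IsManifold n M) {ι : Type} (U : ι → Set M) (hT : ∀ i, T2Space (U i))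
    (j : (i : ι) × ConnectedComponents (U i)) : #(comp U j) ≤ 𝔠 := by
  obtain ⟨i, c⟩ := j
  obtain ⟨u, rfl⟩ := ConnectedComponents.surjective_coe c
  rw [comp_eq]
  have := firstCountable hM
  have := hT i
  have hconn : ConnectedSpace (connectedComponent u) :=
    Subtype.connectedSpace isConnected_connectedComponent
  refine Cardinal.mk_image_le.trans (hCard (connectedComponent u) ?_)
  intro x
  obtain ⟨V, hxV, hV⟩ := hM.2 (x : U i)
  refine ⟨(fun y : connectedComponent u => ((y : U i) : M)) ⁻¹' V,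
    hV.1.preimage (continuous_subtype_val.comp continuous_subtype_val), hxV, ?_⟩
  refine le_trans ?_ (euclid_card hV)
  refine Cardinal.mk_le_of_injective
    (f := fun y : ((fun y : connectedComponent u => ((y : U i) : M)) ⁻¹' V : Set _) =>
      (⟨((y : connectedComponent u) : U i), y.2⟩ : V)) ?_
  intro y z h
  simp only [Subtype.mk.injEq] at h
  exact Subtype.ext (Subtype.ext (Subtype.ext h))

theorem oh_mem {n : ℕ} {M : Type} [TopologicalSpace M] (hM : IsManifold n M) :
    ∃ (ι : Type) (U : ι → Set M), #ι = OH M ∧ (∀ i, IsOpen (U i) ∧ T2Space (U i)) ∧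
      ⋃ i, U i = Set.univ := by
  have hne : {κ : Cardinal.{0} | ∃ (ι : Type) (U : ι → Set M), #ι = κ ∧
      (∀ i, IsOpen (U i) ∧ T2Space (U i)) ∧ ⋃ i, U i = Set.univ}.Nonempty := by
    choose V hV1 hV2 using hM.2
    refine ⟨#M, M, V, rfl, fun i => ⟨(hV2 i).1, ?_⟩, ?_⟩
    · obtain ⟨-, ⟨e⟩⟩ := hV2 i
      exact e.symm.t2Space
    · exact Set.eq_univ_of_forall fun x => Set.mem_iUnion.2 ⟨x, hV1 x⟩
  exact csInf_mem hne

theorem main (hCard : TaskCard) (hChain : TaskChain) : Pool.Agent.Q226.ENH.TaskLarge := by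
  intro n M _ hM hc
  obtain ⟨ι, U, hι, hU, hcov⟩ := oh_mem hM
  have hloc := locallyConnected hM
  have := hM.1
  set μ := OH M with hμ
  have hμ0 : ℵ₀ ≤ μ := Cardinal.aleph0_le_continuum.trans hc
  have hcard : ∀ j, #(comp U j) ≤ 𝔠 := card_comp hCard hM U fun i => (hU i).2
  -- the number of components
  have hJ : #((i : ι) × ConnectedComponents (U i)) ≤ μ := by
    refine hChain M _ (comp U) μ hμ0 ?_ ?_ ?_ ?_
    · rintro ⟨i, c⟩
      obtain ⟨u, rfl⟩ := ConnectedComponents.surjective_coe c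
      rw [comp_eq]
      have : LocallyConnectedSpace (U i) := (hU i).1.isOpenEmbedding_subtypeVal.locallyConnectedSpace
      exact (hU i).1.isOpenMap_subtype_val _ isOpen_connectedComponent
    · rintro ⟨i, c⟩
      obtain ⟨u, rfl⟩ := ConnectedComponents.surjective_coe c
      exact ⟨u, u, rfl, rfl⟩
    · refine Set.eq_univ_of_forall fun x => ?_
      obtain ⟨i, hi⟩ := Set.mem_iUnion.1 (hcov ▸ Set.mem_univ x : x ∈ ⋃ i, U i)
      exact Set.mem_iUnion.2 ⟨⟨i, ((⟨x, hi⟩ : U i) : ConnectedComponents (U i))⟩,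
        (mem_comp U i x hi _).2 rfl⟩
    · intro j
      have hle : #{j' // (comp U j ∩ comp U j').Nonempty} ≤ #(ι × comp U j) := by
        refine Cardinal.mk_le_of_injective
          (f := fun j' : {j' // (comp U j ∩ comp U j').Nonempty} =>
            ((j'.1.1, ⟨j'.2.some, j'.2.some_mem.1⟩) : ι × comp U j)) ?_
        rintro ⟨⟨i, c⟩, h⟩ ⟨⟨i', c'⟩, h'⟩ he
        simp only [Prod.mk.injEq, Subtype.mk.injEq] at he
        obtain ⟨rfl, he⟩ := he
        have h1 : h.some ∈ comp U ⟨i, c⟩ := h.some_mem.2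
        have h2 : h'.some ∈ comp U ⟨i, c'⟩ := h'.some_mem.2
        rw [← he] at h2
        have hi : h.some ∈ U i := comp_subset U _ h1
        rw [mem_comp U i _ hi] at h1 h2
        rw [h1] at h2
        subst h2
        rfl
      refine hle.trans ?_
      rw [Cardinal.mk_prod, Cardinal.lift_id, Cardinal.lift_id, hι]
      calc μ * #(comp U j) ≤ μ * μ := by
            gcongr
            exact (hcard j).trans hc
        _ = μ := Cardinal.mul_eq_self hμ0
  have hMc : #M ≤ μ := by
    have h1 : #M ≤ #((j : (i : ι) × ConnectedComponents (U i)) × comp U j) := by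
      refine Cardinal.mk_le_of_surjective
        (f := fun p : (j : (i : ι) × ConnectedComponents (U i)) × comp U j => (p.2 : M)) ?_
      intro x
      obtain ⟨i, hi⟩ := Set.mem_iUnion.1 (hcov ▸ Set.mem_univ x : x ∈ ⋃ i, U i)
      exact ⟨⟨⟨i, ((⟨x, hi⟩ : U i) : ConnectedComponents (U i))⟩,
        ⟨x, (mem_comp U i x hi _).2 rfl⟩⟩, rfl⟩
    refine h1.trans ?_
    rw [Cardinal.mk_sigma]
    calc Cardinal.sum (fun j => #(comp U j)) ≤ Cardinal.sum
          (fun _ : (i : ι) × ConnectedComponents (U i) => 𝔠) := Cardinal.sum_le_sum _ _ hcard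
      _ = #((i : ι) × ConnectedComponents (U i)) * 𝔠 := by
          rw [Cardinal.sum_const, Cardinal.lift_id, Cardinal.lift_id]
      _ ≤ μ * μ := by gcongr
      _ = μ := Cardinal.mul_eq_self hμ0
  refine le_trans ?_ hMc
  choose V hV1 hV2 using hM.2
  exact csInf_le' ⟨M, V, rfl, hV2, Set.eq_univ_of_forall fun x => Set.mem_iUnion.2 ⟨x, hV1 x⟩⟩

end Pool.Agent.Q226.ENH.TaskLarge
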