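import Pool.Agent.Q226.ENH.Stmts

set_option autoImplicit false

open Cardinal Topology Set

namespace Pool.Agent.Q226.ENH.TaskLine

/-- the doubled sets -/
def CC {ι : Type} (N : ι → Set ℝ) : Option ι → Set ℝ
  | none => ∅
  | some i => closure (N i)

theorem CC_closed {ι : Type} (N : ι → Set ℝ) (o : Option ι) : IsClosed (CC N o) := by
  cases o with
  | none => exact isClosed_empty
  | some i => exact isClosed_closure

theorem CC_int {ι : Type} (N : ι → Set ℝ) (hN : ∀ i, IsNowhereDense (N i)) (o : Option ι) :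
    interior (CC N o) = ∅ := by
  cases o with
  | none => exact interior_empty
  | some i => exact hN i

/-- the equivalence relation -/
def rel {ι : Type} (N : ι → Set ℝ) : Setoid ((_ : Option ι) × ℝ) where
  r p q := p.2 = q.2 ∧ (p.1 = q.1 ∨ (p.2 ∉ CC N p.1 ∧ p.2 ∉ CC N q.1))
  iseqv := by
    refine ⟨fun p => ⟨rfl, Or.inl rfl⟩, ?_, ?_⟩
    · rintro ⟨i, x⟩ ⟨j, y⟩ ⟨h1, h2⟩
      simp only at h1 h2 ⊢
      subst h1
      refine ⟨rfl, ?_⟩
      rcases h2 with h2 | h2
      · exact Or.inl h2.symm
      · exact Or.inr ⟨h2.2, h2.1⟩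
    · rintro ⟨i, x⟩ ⟨j, y⟩ ⟨k, z⟩ ⟨h1, h2⟩ ⟨h3, h4⟩
      simp only at h1 h2 h3 h4 ⊢
      subst h1
      subst h3
      refine ⟨rfl, ?_⟩
      rcases h2 with h2 | h2
      · subst h2; exact h4
      · rcases h4 with h4 | h4
        · subst h4; exact Or.inr h2
        · exact Or.inr ⟨h2.1, h4.2⟩

theorem rel_iff {ι : Type} (N : ι → Set ℝ) (i j : Option ι) (x y : ℝ) :
    (rel N) ⟨i, x⟩ ⟨j, y⟩ ↔ x = y ∧ (i = j ∨ (x ∉ CC N i ∧ x ∉ CC N j)) := Iff.rfl

theorem main (hG : TaskGlue) : Pool.Agent.Q226.ENH.TaskLine := by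
  intro ι N hN hcov
  classical
  have hemb : ∀ i, IsOpenEmbedding
      (fun x : ℝ => (Quotient.mk (rel N) ⟨i, x⟩ : Quotient (rel N))) := by
    refine hG ℝ (Option ι) (rel N) (fun i x y h => h.1) ?_
    intro i j U hU
    by_cases hij : i = j
    · subst hij
      have : {x | ∃ y ∈ U, (rel N) ⟨i, x⟩ ⟨i, y⟩} = U := by
        ext x
        constructor
        · rintro ⟨y, hy, h⟩
          have h1 : x = y := h.1
          rw [h1]; exact hy
        · intro hx
          exact ⟨x, hx, rfl, Or.inl rfl⟩
      rw [this]; exact hU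
    · have : {x | ∃ y ∈ U, (rel N) ⟨i, x⟩ ⟨j, y⟩} = U ∩ ((CC N i)ᶜ ∩ (CC N j)ᶜ) := by
        ext x
        constructor
        · rintro ⟨y, hy, h⟩
          have h1 : x = y := h.1
          rcases h.2 with h2 | h2
          · exact absurd h2 hij
          · exact ⟨h1 ▸ hy, h2.1, h2.2⟩
        · rintro ⟨hx, h1, h2⟩
          exact ⟨x, hx, rfl, Or.inr ⟨h1, h2⟩⟩
      rw [this]
      exact hU.inter ((CC_closed N i).isOpen_compl.inter (CC_closed N j).isOpen_compl)
  set f : Option ι → ℝ → Quotient (rel N) := fun i x => Quotient.mk (rel N) ⟨i, x⟩ with hf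
  have hun : ⋃ i, range (f i) = Set.univ := by
    refine Set.eq_univ_of_forall fun q => ?_
    induction q using Quotient.inductionOn with
    | h p =>
      obtain ⟨i, x⟩ := p
      exact Set.mem_iUnion.2 ⟨i, x, rfl⟩
  have hnonsep : ∀ (o o' : Option ι) (W : Set ℝ), IsOpen W → W.Nonempty →
      ∃ z ∈ W, f o z = f o' z := by
    intro o o' W hW hne
    have hint : interior (CC N o ∪ CC N o') = ∅ := by
      rw [interior_union_isClosed_of_interior_empty (CC_closed N o) (CC_int N hN o')]
      exact CC_int N hN o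
    by_contra hcon
    push Not at hcon
    obtain ⟨x, hx⟩ := hne
    have hsub : W ⊆ CC N o ∪ CC N o' := by
      intro z hz
      by_contra hz2
      rw [Set.mem_union, not_or] at hz2
      exact hcon z hz (Quotient.sound ⟨rfl, Or.inr hz2⟩)
    have : x ∈ interior (CC N o ∪ CC N o') := mem_interior.2 ⟨W, hsub, hW, hx⟩
    rw [hint] at this
    exact this
  refine ⟨Quotient (rel N), inferInstance, f, ?_, hemb, hun, ?_⟩
  · have hpre : IsPreconnected (Set.univ : Set (Quotient (rel N))) := by
      have h1 : (Set.univ : Set (Quotient (rel N))) = ⋃ i, (range (f none) ∪ range (f i)) := by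
        refine Set.Subset.antisymm ?_ (Set.subset_univ _)
        rw [← hun]
        exact Set.iUnion_mono fun i => Set.subset_union_right
      rw [h1]
      refine isPreconnected_iUnion ⟨f none 0, Set.mem_iInter.2 fun i => Or.inl ⟨0, rfl⟩⟩ fun i => ?_
      obtain ⟨z, -, hz⟩ := hnonsep none i Set.univ isOpen_univ ⟨0, trivial⟩
      refine IsPreconnected.union (f none z) ⟨z, rfl⟩ ⟨z, hz.symm⟩ ?_ ?_
      · exact isPreconnected_range (hemb none).continuous
      · exact isPreconnected_range (hemb i).continuous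
    exact { isPreconnected_univ := hpre, toNonempty := ⟨f none 0⟩ }
  · intro q
    induction q using Quotient.inductionOn with
    | h p =>
      obtain ⟨o, x⟩ := p
      have htwin : ∃ o' : Option ι, f o' x ≠ f o x := by
        by_cases hx : x ∈ CC N o
        · refine ⟨none, fun h => ?_⟩
          have h2 : (rel N) ⟨none, x⟩ ⟨o, x⟩ := Quotient.exact h
          rcases h2.2 with h3 | h3
          · have h3' : none = o := h3
            rw [← h3'] at hx
            exact hx
          · exact h3.2 hx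
        · have : x ∈ ⋃ i, N i := by rw [hcov]; trivial
          obtain ⟨i, hi⟩ := Set.mem_iUnion.1 this
          have hi' : x ∈ CC N (some i) := subset_closure hi
          refine ⟨some i, fun h => ?_⟩
          have h2 : (rel N) ⟨some i, x⟩ ⟨o, x⟩ := Quotient.exact h
          rcases h2.2 with h3 | h3
          · have h3' : some i = o := h3
            rw [← h3'] at hx
            exact hx hi'
          · exact h3.1 hi'
      obtain ⟨o', ho'⟩ := htwin
      refine ⟨f o' x, ho', ?_⟩
      rintro ⟨U, V, hU, hV, hxU, hxV, hdis⟩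
      obtain ⟨z, hz, hzz⟩ := hnonsep o o' (f o ⁻¹' U ∩ f o' ⁻¹' V)
        ((hU.preimage (hemb o).continuous).inter (hV.preimage (hemb o').continuous))
        ⟨x, hxU, hxV⟩
      exact Set.disjoint_left.1 hdis hz.1 (hzz ▸ hz.2)

end Pool.Agent.Q226.ENH.TaskLine
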