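import Pool.Agent.Q226.ENH.Stmts

/-! # `TaskProd`: the product of the doubled line and the Pruefer surface -/

set_option autoImplicit false

open Cardinal Topology Set

namespace Pool.Agent.Q226.ENH.TaskProd

open Pool.Agent.Q226.ENH

/-- `ℝ × (ℝ × ℝ)` is homeomorphic to `ℝ^3` -/
theorem homeo3 : Nonempty ((ℝ × (ℝ × ℝ)) ≃ₜ EuclideanSpace ℝ (Fin 3)) := by
  have h : Module.finrank ℝ (ℝ × (ℝ × ℝ)) = Module.finrank ℝ (EuclideanSpace ℝ (Fin 3)) := by
    simp [Module.finrank_prod]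
  exact ⟨(ContinuousLinearEquiv.ofFinrankEq h).toHomeomorph⟩

/-- the product of two charts -/
theorem chart {X S : Type} [TopologicalSpace X] [TopologicalSpace S] (f : ℝ → X) (g : ℝ × ℝ → S)
    (hf : IsOpenEmbedding f) (hg : IsOpenEmbedding g) :
    IsEuclid 3 (range f ×ˢ range g : Set (X × S)) := by
  refine ⟨hf.isOpen_range.prod hg.isOpen_range, ?_⟩
  obtain ⟨e3⟩ := homeo3
  have hfg : IsOpenEmbedding (Prod.map f g) := hf.prodMap hg
  have hr : range (Prod.map f g) = (range f ×ˢ range g : Set (X × S)) := range_prodMap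
  have e1 : (ℝ × (ℝ × ℝ)) ≃ₜ range (Prod.map f g) := hfg.isEmbedding.toHomeomorph
  rw [← hr]
  exact ⟨e1.symm.trans e3⟩

theorem main : Pool.Agent.Q226.ENH.TaskProd := by
  intro K X _ f S _ g W hX hf hcov hNH hT2 hS hg hgcov hW hWd
  haveI := hX
  haveI := hS
  haveI := hT2
  have hchart : ∀ p : X × S, ∃ i a, p ∈ (range (f i) ×ˢ range (g a) : Set (X × S)) := by
    intro p
    have h1 : p.1 ∈ ⋃ i, range (f i) := by rw [hcov]; trivial
    have h2 : p.2 ∈ ⋃ a, range (g a) := by rw [hgcov]; trivial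
    obtain ⟨i, hi⟩ := mem_iUnion.1 h1
    obtain ⟨a, ha⟩ := mem_iUnion.1 h2
    exact ⟨i, a, hi, ha⟩
  refine ⟨⟨⟨inferInstance, fun p => ?_⟩, fun p => ?_⟩, ?_, ?_⟩
  · obtain ⟨i, a, h⟩ := hchart p
    exact ⟨_, h, chart (f i) (g a) (hf i) (hg a)⟩
  · obtain ⟨y, hy1, hy2⟩ := hNH p.1
    refine ⟨(y, p.2), fun h => hy1 (congrArg Prod.fst h), ?_⟩
    rintro ⟨U, V, hU, hV, hpU, hpV, hUV⟩
    have hc : Continuous fun x : X => (x, p.2) := by fun_prop
    refine hy2 ⟨(fun x : X => (x, p.2)) ⁻¹' U, (fun x : X => (x, p.2)) ⁻¹' V, hU.preimage hc,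
      hV.preimage hc, hpU, hpV, hUV.preimage _⟩
  · refine csInf_le' ⟨K, fun i => range (f i) ×ˢ (univ : Set S), rfl, fun i => ⟨?_, ?_⟩, ?_⟩
    · exact (hf i).isOpen_range.prod isOpen_univ
    · haveI : T2Space (range (f i)) :=
        ((hf i).isEmbedding.toHomeomorph).symm.isEmbedding.t2Space
      refine T2Space.of_injective_continuous
        (f := fun p : (range (f i) ×ˢ (univ : Set S) : Set (X × S)) =>
          ((⟨p.1.1, p.2.1⟩ : range (f i)), p.1.2)) ?_ ?_
      · intro p q h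
        simp only [Prod.mk.injEq, Subtype.mk.injEq] at h
        exact Subtype.ext (Prod.ext h.1 h.2)
      · refine Continuous.prodMk (Continuous.subtype_mk ?_ _) ?_ <;> fun_prop
    · rw [eq_univ_iff_forall]
      intro p
      obtain ⟨i, a, h⟩ := hchart p
      exact mem_iUnion.2 ⟨i, h.1, trivial⟩
  · have hne : {κ : Cardinal.{0} | ∃ (ι : Type) (U : ι → Set (X × S)), #ι = κ ∧
        (∀ i, IsEuclid 3 (U i)) ∧ ⋃ i, U i = Set.univ}.Nonempty := by
      refine ⟨_, K × ℝ, fun q => range (f q.1) ×ˢ range (g q.2), rfl, fun q =>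
        chart _ _ (hf _) (hg _), ?_⟩
      rw [eq_univ_iff_forall]
      intro p
      obtain ⟨i, a, h⟩ := hchart p
      exact mem_iUnion.2 ⟨(i, a), h⟩
    obtain ⟨ι, U, hι, hU, hUcov⟩ := csInf_mem hne
    have hcount : ∀ i, {a : ℝ | (U i ∩ ((Set.univ : Set X) ×ˢ W a)).Nonempty}.Countable := by
      intro i
      obtain ⟨e⟩ := (hU i).2
      haveI : SecondCountableTopology (U i) := e.isEmbedding.secondCountableTopology
      refine Set.PairwiseDisjoint.countable_of_isOpen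
        (s := fun a : ℝ => ((↑) : U i → X × S) ⁻¹' ((Set.univ : Set X) ×ˢ W a)) ?_ ?_ ?_
      · intro a _ b _ hab
        have h1 := hWd a b hab
        rw [Function.onFun, Set.disjoint_left]
        rintro p hp hq
        exact Set.disjoint_left.1 h1 hp.2 hq.2
      · intro a _
        exact (isOpen_univ.prod (hW a).1).preimage continuous_subtype_val
      · rintro a ⟨p, hp, hq⟩
        exact ⟨⟨p, hp⟩, hq⟩
    have hall : ∀ a : ℝ, ∃ i, (U i ∩ ((Set.univ : Set X) ×ˢ W a)).Nonempty := by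
      intro a
      obtain ⟨w, hw⟩ := (hW a).2
      obtain ⟨x⟩ : Nonempty X := inferInstance
      have h1 : ((x, w) : X × S) ∈ ⋃ i, U i := by rw [hUcov]; trivial
      obtain ⟨i, hi⟩ := mem_iUnion.1 h1
      exact ⟨i, (x, w), hi, trivial, hw⟩
    show 𝔠 ≤ sInf _
    rw [← hι]
    by_contra hlt
    rw [not_le] at hlt
    have h1 : #ℝ ≤ #(⋃ i, {a : ℝ | (U i ∩ ((Set.univ : Set X) ×ˢ W a)).Nonempty}) := by
      have h2 : (⋃ i, {a : ℝ | (U i ∩ ((Set.univ : Set X) ×ˢ W a)).Nonempty}) = Set.univ := by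
        rw [eq_univ_iff_forall]
        intro a
        obtain ⟨i, hi⟩ := hall a
        exact mem_iUnion.2 ⟨i, hi⟩
      rw [h2, mk_univ]
    have h2 : #(⋃ i, {a : ℝ | (U i ∩ ((Set.univ : Set X) ×ˢ W a)).Nonempty}) ≤ #ι * ℵ₀ := by
      refine (mk_iUnion_le_sum_mk).trans ?_
      refine (Cardinal.sum_le_sum _ (fun _ => ℵ₀) fun i => ?_).trans ?_
      · exact (hcount i).le_aleph0
      · rw [Cardinal.sum_const']
    have h3 : #ι * ℵ₀ < 𝔠 := Cardinal.mul_lt_of_lt aleph0_le_continuum hlt aleph0_lt_continuum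
    have h4 := (h1.trans h2).trans_lt h3
    rw [mk_real] at h4
    exact lt_irrefl _ h4

end Pool.Agent.Q226.ENH.TaskProd
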