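import Pool.Agent.Q226.ENH.Stmts

set_option autoImplicit false

open Cardinal Topology Set

namespace Pool.Agent.Q226.ENH.TaskPruefer

/-- the gluing relation of the Pruefer surface -/
def rel (s t : (_ : ℝ) × (ℝ × ℝ)) : Prop :=
  s = t ∨ (s.2.2 = t.2.2 ∧ 0 < s.2.2 ∧ s.1 + s.2.1 * s.2.2 = t.1 + t.2.1 * t.2.2)

def st : Setoid ((_ : ℝ) × (ℝ × ℝ)) where
  r := rel
  iseqv := by
    refine ⟨fun s => Or.inl rfl, ?_, ?_⟩
    · rintro s t (h | ⟨h1, h2, h3⟩)
      · exact Or.inl h.symm
      · exact Or.inr ⟨h1.symm, h1 ▸ h2, h3.symm⟩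
    · rintro s t u (h | ⟨h1, h2, h3⟩) (h' | ⟨h1', h2', h3'⟩)
      · exact Or.inl (h.trans h')
      · subst h; exact Or.inr ⟨h1', h2', h3'⟩
      · subst h'; exact Or.inr ⟨h1, h2, h3⟩
      · exact Or.inr ⟨h1.trans h1', h2, h3.trans h3'⟩

theorem rel_iff (a b x y u v : ℝ) : rel ⟨a, (x, y)⟩ ⟨b, (u, v)⟩ ↔
    (a = b ∧ x = u ∧ y = v) ∨ (y = v ∧ 0 < y ∧ a + x * y = b + u * v) := by
  unfold rel
  constructor
  · rintro (h | h)
    · cases h
      exact Or.inl ⟨rfl, rfl, rfl⟩
    · exact Or.inr h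
  · rintro (⟨rfl, rfl, rfl⟩ | h)
    · exact Or.inl rfl
    · exact Or.inr h

theorem inj (a : ℝ) (p q : ℝ × ℝ) (h : st ⟨a, p⟩ ⟨a, q⟩) : p = q := by
  obtain ⟨x, y⟩ := p
  obtain ⟨u, v⟩ := q
  rcases (rel_iff a a x y u v).1 h with ⟨_, rfl, rfl⟩ | ⟨rfl, h2, h3⟩
  · rfl
  · have h4 : x * y = u * y := by linarith
    rw [mul_right_cancel₀ h2.ne' h4]

theorem opn (a b : ℝ) (U : Set (ℝ × ℝ)) (hU : IsOpen U) :
    IsOpen {p : ℝ × ℝ | ∃ q ∈ U, st ⟨a, p⟩ ⟨b, q⟩} := by
  by_cases hab : a = b
  · subst hab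
    have : {p : ℝ × ℝ | ∃ q ∈ U, st ⟨a, p⟩ ⟨a, q⟩} = U := by
      ext p
      constructor
      · rintro ⟨q, hq, h⟩
        rw [inj a p q h]
        exact hq
      · intro hp
        exact ⟨p, hp, Or.inl rfl⟩
    rw [this]
    exact hU
  · have : {p : ℝ × ℝ | ∃ q ∈ U, st ⟨a, p⟩ ⟨b, q⟩} =
        {p : ℝ × ℝ | 0 < p.2} ∩ (fun p : ℝ × ℝ => ((a + p.1 * p.2 - b) / p.2, p.2)) ⁻¹' U := by
      ext p
      obtain ⟨x, y⟩ := p
      constructor
      · rintro ⟨⟨u, v⟩, hq, h⟩
        rcases (rel_iff a b x y u v).1 h with ⟨h', _⟩ | ⟨rfl, h2, h3⟩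
        · exact absurd h' hab
        · refine ⟨h2, ?_⟩
          have e : (a + x * y - b) / y = u := by
            rw [div_eq_iff h2.ne']
            linarith
          show ((a + x * y - b) / y, y) ∈ U
          rw [e]
          exact hq
      · rintro ⟨h1, h2⟩
        have h1' : 0 < y := h1
        refine ⟨((a + x * y - b) / y, y), h2, ?_⟩
        apply (rel_iff a b x y _ _).2
        refine Or.inr ⟨rfl, h1', ?_⟩
        field_simp
        ring
    rw [this]
    apply ContinuousOn.isOpen_inter_preimage _ (isOpen_lt continuous_const continuous_snd) hU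
    apply ContinuousOn.prodMk
    · apply ContinuousOn.div
      · fun_prop
      · fun_prop
      · intro p hp
        exact (ne_of_gt hp)
    · fun_prop

/-- the height -/
noncomputable def Y : Quotient st → ℝ :=
  Quotient.lift (fun s : (_ : ℝ) × (ℝ × ℝ) => s.2.2) (by
    rintro s t (h | ⟨h1, _, _⟩)
    · rw [h]
    · exact h1)

theorem Y_cont : Continuous Y :=
  Continuous.quotient_lift (continuous_sigma fun _ => continuous_snd) _

/-- the second function -/
noncomputable def Z : Quotient st → ℝ :=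
  Quotient.lift (fun s : (_ : ℝ) × (ℝ × ℝ) => max s.2.2 0 * (s.1 + s.2.1 * s.2.2)) (by
    rintro s t (h | ⟨h1, _, h3⟩)
    · rw [h]
    · show max s.2.2 0 * (s.1 + s.2.1 * s.2.2) = max t.2.2 0 * (t.1 + t.2.1 * t.2.2)
      rw [h1, ← h3, h1])

theorem Z_cont : Continuous Z := by
  refine Continuous.quotient_lift (continuous_sigma fun a => ?_) _
  fun_prop

theorem main (hG : TaskGlue) : Pool.Agent.Q226.ENH.TaskPruefer := by
  have hemb : ∀ a, IsOpenEmbedding
      (fun x : ℝ × ℝ => (Quotient.mk st ⟨a, x⟩ : Quotient st)) :=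
    hG (ℝ × ℝ) ℝ st inj opn
  have hrel : ∀ (a b : ℝ) (p q : ℝ × ℝ),
      (Quotient.mk st ⟨a, p⟩ : Quotient st) = Quotient.mk st ⟨b, q⟩ → rel ⟨a, p⟩ ⟨b, q⟩ :=
    fun a b p q h => Quotient.exact h
  have hcov : ⋃ a : ℝ, range (fun x : ℝ × ℝ => (Quotient.mk st ⟨a, x⟩ : Quotient st)) =
      Set.univ := by
    apply Set.eq_univ_of_forall
    intro s
    induction s using Quotient.ind with
    | _ s => exact mem_iUnion.2 ⟨s.1, s.2, rfl⟩
  refine ⟨Quotient st, inferInstance, fun a p => Quotient.mk st ⟨a, p⟩, ⟨?_⟩, ?_, hemb, hcov,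
    fun a => (fun p => Quotient.mk st ⟨a, p⟩) '' {p : ℝ × ℝ | p.2 < 0}, ?_, ?_⟩
  · intro s t hst
    induction s using Quotient.ind with
    | _ s =>
    induction t using Quotient.ind with
    | _ t =>
    obtain ⟨a, x, y⟩ := s
    obtain ⟨b, u, v⟩ := t
    by_cases hyv : y = v
    · subst hyv
      rcases lt_or_ge 0 y with hy | hy
      · have hne : Z (Quotient.mk st ⟨a, (x, y)⟩) ≠ Z (Quotient.mk st ⟨b, (u, y)⟩) := by
          intro h
          apply hst
          apply Quotient.sound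
          apply (rel_iff a b x y u y).2
          refine Or.inr ⟨rfl, hy, ?_⟩
          change max y 0 * (a + x * y) = max y 0 * (b + u * y) at h
          rw [max_eq_left hy.le] at h
          exact mul_left_cancel₀ hy.ne' h
        obtain ⟨A, B, hA, hB, hsA, htB, hAB⟩ := t2_separation hne
        exact ⟨Z ⁻¹' A, Z ⁻¹' B, hA.preimage Z_cont, hB.preimage Z_cont, hsA, htB,
          hAB.preimage Z⟩
      · by_cases hab : a = b
        · subst hab
          have hne : ((x, y) : ℝ × ℝ) ≠ (u, y) := by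
            intro h
            apply hst
            rw [h]
          obtain ⟨A, B, hA, hB, hsA, htB, hAB⟩ := t2_separation hne
          refine ⟨_, _, (hemb a).isOpenMap A hA, (hemb a).isOpenMap B hB, ⟨_, hsA, rfl⟩,
            ⟨_, htB, rfl⟩, ?_⟩
          exact (Set.disjoint_image_iff (hemb a).injective).2 hAB
        · obtain ⟨ε, hε, hε2⟩ : ∃ ε : ℝ, 0 < ε ∧ ε * (|x| + |u| + 2) < |a - b| := by
            have h0 : 0 < |a - b| := abs_pos.2 (sub_ne_zero.2 hab)
            have h1 : 0 < |x| + |u| + 2 := by positivity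
            refine ⟨|a - b| / (2 * (|x| + |u| + 2)), by positivity, ?_⟩
            have : |a - b| / (2 * (|x| + |u| + 2)) * (|x| + |u| + 2) = |a - b| / 2 := by
              field_simp
            rw [this]
            linarith
          refine ⟨_, _, (hemb a).isOpenMap {p : ℝ × ℝ | |p.1| < |x| + 1 ∧ p.2 < y + ε} ?_,
            (hemb b).isOpenMap {p : ℝ × ℝ | |p.1| < |u| + 1 ∧ p.2 < y + ε} ?_,
            ⟨(x, y), ⟨?_, ?_⟩, rfl⟩, ⟨(u, y), ⟨?_, ?_⟩, rfl⟩, ?_⟩
          · exact (isOpen_lt (continuous_abs.comp continuous_fst) continuous_const).inter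
              (isOpen_lt continuous_snd continuous_const)
          · exact (isOpen_lt (continuous_abs.comp continuous_fst) continuous_const).inter
              (isOpen_lt continuous_snd continuous_const)
          · show |x| < |x| + 1
            linarith
          · show y < y + ε
            linarith
          · show |u| < |u| + 1
            linarith
          · show y < y + ε
            linarith
          · rw [Set.disjoint_left]
            rintro _ ⟨⟨x1, y1⟩, ⟨hx1, hy1⟩, rfl⟩ ⟨⟨u1, v1⟩, ⟨hu1, hv1⟩, he⟩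
            simp only at hx1 hy1 hu1 hv1
            rcases (rel_iff b a u1 v1 x1 y1).1 (hrel _ _ _ _ he) with ⟨h, _⟩ | ⟨h1, h2, h3⟩
            · exact hab h.symm
            · subst h1
              have h4 : a - b = (u1 - x1) * v1 := by linarith
              have h5 : |a - b| = |u1 - x1| * v1 := by
                rw [h4, abs_mul, abs_of_pos h2]
              have h6 : |u1 - x1| ≤ |x| + |u| + 2 := by
                have := abs_sub u1 x1
                linarith
              have h7 : v1 ≤ ε := by linarith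
              have h8 : |u1 - x1| * v1 ≤ (|x| + |u| + 2) * ε :=
                mul_le_mul h6 h7 h2.le (by positivity)
              nlinarith
    · have hne : Y (Quotient.mk st ⟨a, (x, y)⟩) ≠ Y (Quotient.mk st ⟨b, (u, v)⟩) := hyv
      obtain ⟨A, B, hA, hB, hsA, htB, hAB⟩ := t2_separation hne
      exact ⟨Y ⁻¹' A, Y ⁻¹' B, hA.preimage Y_cont, hB.preimage Y_cont, hsA, htB,
        hAB.preimage Y⟩
  · have hpre : IsPreconnected (Set.univ : Set (Quotient st)) := by
      rw [← hcov]
      apply isPreconnected_iUnion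
      · refine ⟨Quotient.mk st ⟨0, (0, 1)⟩, mem_iInter.2 fun a => ⟨(-a, 1), ?_⟩⟩
        apply Quotient.sound
        apply (rel_iff a 0 (-a) 1 0 1).2
        exact Or.inr ⟨rfl, one_pos, by ring⟩
      · intro a
        exact isPreconnected_range (hemb a).continuous
    have : Nonempty (Quotient st) := ⟨Quotient.mk st ⟨0, (0, 0)⟩⟩
    exact { isPreconnected_univ := hpre, toNonempty := this }
  · intro a
    refine ⟨(hemb a).isOpenMap _ (isOpen_lt continuous_snd continuous_const), ?_⟩
    exact ⟨_, (0, -1), by simp, rfl⟩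
  · intro a b hab
    rw [Set.disjoint_left]
    rintro _ ⟨⟨x1, y1⟩, hy1, rfl⟩ ⟨⟨u1, v1⟩, hv1, he⟩
    rcases (rel_iff b a u1 v1 x1 y1).1 (hrel _ _ _ _ he) with ⟨h, _⟩ | ⟨h1, h2, h3⟩
    · exact hab h.symm
    · have : v1 < 0 := hv1
      linarith

end Pool.Agent.Q226.ENH.TaskPruefer
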